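import Pool.Agent.H99.NAPoisson4

noncomputable section

namespace Pool.Agent.Results.MP_2bcfbf_mp.Classification

open Pool.Agent.H99.NAPoisson

theorem pentagon {N : ℕ} (m : Fin N → Fin N → Fin N → ℂ) (w x y z k : Fin N) :
    ∑ s, m w x s * assoc m s y z k - ∑ s, m x y s * assoc m w s z k +
      ∑ s, m y z s * assoc m w x s k =
      ∑ t, assoc m x y z t * m w t k + ∑ t, assoc m w x y t * m t z k := by
  have P1 : ∑ s, m w x s * assoc m s y z k = ∑ s, ∑ t, m w x s * m s y t * m t z k -
      ∑ s, ∑ t, m w x s * m y z t * m s t k := by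
    simp only [assoc, Finset.mul_sum, mul_sub, Finset.sum_sub_distrib, mul_assoc]
  have P2 : ∑ s, m x y s * assoc m w s z k = ∑ s, ∑ t, m x y s * m w s t * m t z k -
      ∑ s, ∑ t, m x y s * m s z t * m w t k := by
    simp only [assoc, Finset.mul_sum, mul_sub, Finset.sum_sub_distrib, mul_assoc]
  have P3 : ∑ s, m y z s * assoc m w x s k = ∑ s, ∑ t, m w x s * m y z t * m s t k -
      ∑ s, ∑ t, m y z s * m x s t * m w t k := by
    rw [Finset.sum_comm (f := fun s t => m w x s * m y z t * m s t k)]
    simp only [assoc, Finset.mul_sum, mul_sub, Finset.sum_sub_distrib, mul_assoc, mul_left_comm]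
  have P4 : ∑ t, assoc m x y z t * m w t k = ∑ s, ∑ t, m x y s * m s z t * m w t k -
      ∑ s, ∑ t, m y z s * m x s t * m w t k := by
    rw [Finset.sum_comm (f := fun s t => m x y s * m s z t * m w t k),
      Finset.sum_comm (f := fun s t => m y z s * m x s t * m w t k)]
    simp only [assoc, Finset.sum_mul, sub_mul, Finset.sum_sub_distrib]
  have P5 : ∑ t, assoc m w x y t * m t z k = ∑ s, ∑ t, m w x s * m s y t * m t z k -
      ∑ s, ∑ t, m x y s * m w s t * m t z k := by
    rw [Finset.sum_comm (f := fun s t => m w x s * m s y t * m t z k),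
      Finset.sum_comm (f := fun s t => m x y s * m w s t * m t z k)]
    simp only [assoc, Finset.sum_mul, sub_mul, Finset.sum_sub_distrib]
  rw [P1, P2, P3, P4, P5]
  ring

theorem invariant {N : ℕ} {m : Fin N → Fin N → Fin N → ℂ} {B : Fin N → Fin N → ℂ}
    (h : ∀ i j l k, assoc m i j l k = B i j * kr l k - B j l * kr i k) (w x y : Fin N) :
    ∑ s, m w x s * B s y = ∑ s, m x y s * B w s := by
  have key : ∀ w x y : Fin N, (∑ s, m w x s * B s y - ∑ s, m x y s * B w s) +
      (∑ s, m x y s * B s w - ∑ s, m y w s * B x s) = 0 := by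
    intro w x y
    have := pentagon m w x y w w
    simp only [h, kr, mul_sub, sub_mul, Finset.sum_sub_distrib, if_true, mul_one, mul_ite,
      mul_zero, ite_mul, zero_mul, Finset.sum_ite_eq, Finset.sum_ite_eq', Finset.mem_univ] at this
    linear_combination this
  linear_combination (key w x y - key x y w + key y w x) / 2

theorem unital_iff {N : ℕ} (m : Fin N → Fin N → Fin N → ℂ) :
    (∃ B : Fin N → Fin N → ℂ, ∀ i j l k, assoc m i j l k = B i j * kr l k - B j l * kr i k) ↔
      ∃ β : Fin N → Fin N → ℂ, IsAssoc (unitalExt m β) := by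
  constructor
  · rintro ⟨B, hB⟩
    refine ⟨fun i j => - B i j, fun i j l k => ?_⟩
    rcases i with _ | i
    · simp [unitalExt]
    rcases j with _ | j
    · simp [unitalExt]
    rcases l with _ | l
    · rcases k with _ | k <;> simp [unitalExt, Fintype.sum_option]
    rcases k with _ | k
    · simpa [unitalExt, Fintype.sum_option] using invariant hB i j l
    · have := hB i j l k
      simp only [assoc, kr, Finset.sum_sub_distrib] at this
      simp only [unitalExt, Fintype.sum_option, Option.elim_none, Option.elim_some,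
        Option.some.injEq]
      linear_combination this
  · rintro ⟨β, hβ⟩
    refine ⟨fun i j => - β i j, fun i j l k => ?_⟩
    have := hβ (some i) (some j) (some l) (some k)
    simp only [unitalExt, Fintype.sum_option, Option.elim_none, Option.elim_some,
      Option.some.injEq] at this
    simp only [assoc, kr, Finset.sum_sub_distrib]
    linear_combination this

theorem joint (N : ℕ) (b bb : Fin N → Fin N → Fin N → ℂ) :
    (IsPoisson b bb ↔
      ∃ c : Fin N → ℂ, (∀ i j k, b i j k + bb j i k = c i * kr j k - c j * kr i k) ∧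
        ∃ B : Fin N → Fin N → ℂ, ∀ i j l k,
          assoc (fun i j k => b i j k - c i * kr j k) i j l k =
            B i j * kr l k - B j l * kr i k) ∧
    (IsPoisson b bb ↔
      ∃ c : Fin N → ℂ, (∀ i j k, b i j k + bb j i k = c i * kr j k - c j * kr i k) ∧
        ∃ β : Fin N → Fin N → ℂ,
          IsAssoc (unitalExt (fun i j k => b i j k - c i * kr j k) β)) := by
  have h1 : IsPoisson b bb ↔
      ∃ c : Fin N → ℂ, (∀ i j k, b i j k + bb j i k = c i * kr j k - c j * kr i k) ∧
        ∃ B : Fin N → Fin N → ℂ, ∀ i j l k,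
          assoc (fun i j k => b i j k - c i * kr j k) i j l k =
            B i j * kr l k - B j l * kr i k :=
    ⟨necessity, fun ⟨_, hc, _, hB⟩ => sufficiency hc hB⟩
  refine ⟨h1, h1.trans ?_⟩
  simp only [unital_iff]

theorem result (N : ℕ) (b bb : Fin N → Fin N → Fin N → ℂ) :
    IsPoisson b bb ↔
      ∃ c : Fin N → ℂ, (∀ i j k, b i j k + bb j i k = c i * kr j k - c j * kr i k) ∧
        ∃ β : Fin N → Fin N → ℂ,
          IsAssoc (unitalExt (fun i j k => b i j k - c i * kr j k) β) :=
  (joint N b bb).2

end Pool.Agent.Results.MP_2bcfbf_mp.Classification
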